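import Pool.Agent.helper78.FS.Spec

/-! # MP_55808c_co, project FS, row CNC (helper38) -/

set_option autoImplicit false

namespace Pool.Agent.helper78.FS

theorem CNC_nine (d : ZMod 7) (h : d = 3 * (3 * d)) : d = 0 := by
  revert d; decide

theorem CNC_three (d e : ZMod 7) (h : 3 * d = 3 * e) : d = e := by
  revert d e; decide

theorem CNC_ne (i : ZMod 6) (h : i = i + 1 + 1) : False := by
  revert i; decide

theorem CNC_typ (d : ZMod 6 → ZMod 7) (hinj : Function.Injective d)
    (h : ∀ i, d (i + 1) = 3 * d i ∨ d i = 3 * d (i + 1)) :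
    (∀ i, d (i + 1) = 3 * d i) ∨ (∀ i, d i = 3 * d (i + 1)) := by
  have step : ∀ i, d (i + 1) = 3 * d i → d (i + 1 + 1) = 3 * d (i + 1) := by
    intro i hi
    rcases h (i + 1) with h1 | h1
    · exact h1
    · exfalso
      rw [hi] at h1
      exact CNC_ne i (hinj (CNC_three _ _ h1))
  by_cases hex : ∃ i, d (i + 1) = 3 * d i
  · left
    obtain ⟨i₀, hi₀⟩ := hex
    have hn : ∀ n : ℕ, d (i₀ + (n : ZMod 6) + 1) = 3 * d (i₀ + (n : ZMod 6)) := by
      intro n
      induction n with
      | zero => simpa using hi₀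
      | succ n ih =>
        have := step _ ih
        rw [Nat.cast_succ, ← add_assoc]
        exact this
    intro i
    have := hn (i - i₀).val
    rw [ZMod.natCast_zmod_val] at this
    rw [add_sub_cancel] at this
    exact this
  · right
    intro i
    rcases h i with h1 | h1
    · exact absurd ⟨i, h1⟩ hex
    · exact h1

theorem CNC : CNC_stmt := by
  intro hCNA V ι _ _ G col σ a b c x hsym hirr hClo hTri hσ hW hP
  obtain ⟨⟨u, hu, hun, huG⟩, hW1, hW2⟩ := hW
  obtain ⟨hc1, hc2, -, -⟩ := hCNA V ι G a b c x u hsym hirr hClo hTri hu hun huG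
  obtain ⟨d, hd⟩ : ∃ d : ZMod 6 → ZMod 7, ∀ i, d i = σ (col (u i)) - σ (col x) := ⟨_, fun i => rfl⟩
  have hxu : ∀ i, G x (u i) := fun i => (hun _).2 ⟨i, rfl⟩
  have hd0 : ∀ i, d i ≠ 0 := by
    intro i h
    rw [hd, sub_eq_zero] at h
    exact hW2 _ (hxu i) (hσ h)
  have hdi : Function.Injective d := by
    intro i j h
    rw [hd, hd, sub_left_inj] at h
    exact hu (hW1 _ _ (hxu i) (hxu j) (hσ h))
  have htyp := CNC_typ d hdi (by
    intro i
    have := hP (u i) (u (i + 1)) (hxu i) (hxu (i + 1)) ((huG _ _).2 (Or.inl rfl))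
    rw [← hd, ← hd] at this
    exact this)
  have hm : ∀ i, cnt a b c x (u i) (u (i + 1)) = cnt a b c x (u 0) (u (0 + 1)) := by
    have hn : ∀ n : ℕ, cnt a b c x (u (n : ZMod 6)) (u ((n : ZMod 6) + 1)) = cnt a b c x (u 0) (u (0 + 1)) := by
      intro n
      induction n with
      | zero => simp
      | succ n ih =>
        rw [hc1, ← ih, Nat.cast_succ, add_sub_cancel_right]
    intro i
    have := hn i.val
    rw [ZMod.natCast_zmod_val] at this
    exact this
  rcases htyp with ht | ht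
  · refine ⟨cnt a b c x (u 0) (u (0 + 1)), ?_⟩
    intro y w hy hw hyw hpos
    obtain ⟨i, rfl⟩ := (hun y).1 hy
    obtain ⟨j, rfl⟩ := (hun w).1 hw
    rw [← hd, ← hd] at hpos
    rcases (huG i j).1 hyw with h1 | h1
    · rw [h1]; exact hm i
    · exfalso
      have h2 := ht j
      rw [← h1, hpos] at h2
      exact hd0 i (CNC_nine _ h2)
  · refine ⟨-cnt a b c x (u 0) (u (0 + 1)), ?_⟩
    intro y w hy hw hyw hpos
    obtain ⟨i, rfl⟩ := (hun y).1 hy
    obtain ⟨j, rfl⟩ := (hun w).1 hw
    rw [← hd, ← hd] at hpos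
    rcases (huG i j).1 hyw with h1 | h1
    · exfalso
      have h2 := ht i
      rw [← h1, hpos] at h2
      exact hd0 i (CNC_nine _ h2)
    · rw [h1, hc2, ← hm j]

end Pool.Agent.helper78.FS
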